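import Mathlib
import Pool.Agent.Q304.UU.Main

set_option autoImplicit false

/-!
# No free ultrafilter on the naturals is universal for completeness

For every family of at most continuum many free filters on `ℕ` there is a Hausdorff topological
vector space complete over every member of the family, but complete over at most continuum many
of the `2 ^ 𝔠` free ultrafilters. In particular there is, in ZFC, no universal ultrafilter.
-/

open Filter Topology Cardinal Set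

namespace Pool.Agent.Results.MP_6ca30a_an.NoUniversal

/-- A free filter on `ℕ`: proper, and it contains the Frechet filter. -/
def IsFree (F : Filter ℕ) : Prop := F.NeBot ∧ F ≤ cofinite

/-- `𝕜`-TVS: Hausdorff topological vector space. -/
structure IsTVS (𝕜 X : Type) [RCLike 𝕜] [AddCommGroup X] [Module 𝕜 X] [TopologicalSpace X] :
    Prop where
  addGroup : IsTopologicalAddGroup X
  smul : ContinuousSMul 𝕜 X
  hausdorff : T2Space X

section
variable {X : Type} [AddCommGroup X] [TopologicalSpace X]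

/-- The sequence `x` is Cauchy over the filter `F`. -/
def CauchyOver (F : Filter ℕ) (x : ℕ → X) : Prop :=
  ∀ U ∈ 𝓝 (0 : X), ∃ B ∈ F, ∀ n ∈ B, ∀ m ∈ B, x n - x m ∈ U

/-- The sequence `x` converges to `y` over the filter `F`. -/
def ConvergesOver (F : Filter ℕ) (x : ℕ → X) (y : X) : Prop :=
  ∀ V ∈ 𝓝 y, ∃ A ∈ F, ∀ n ∈ A, x n ∈ V

end

/-- `X` is complete over the filter `F`. -/
def ComplOver (F : Filter ℕ) (X : Type) [AddCommGroup X] [TopologicalSpace X] : Prop :=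
  ∀ x : ℕ → X, CauchyOver F x → ∃ y, ConvergesOver F x y

/-- `X` is countably complete: complete over every free filter on `ℕ`. -/
def CountablyComplete (X : Type) [AddCommGroup X] [TopologicalSpace X] : Prop :=
  ∀ F : Filter ℕ, IsFree F → ComplOver F X

/-- The free ultrafilter `U` is universal (for scalars in `𝕜`): every TVS that is complete over
`U` is countably complete. -/
def Universal (𝕜 : Type) [RCLike 𝕜] (U : Ultrafilter ℕ) : Prop :=
  IsFree U ∧ ∀ (X : Type) [AddCommGroup X] [Module 𝕜 X] [TopologicalSpace X],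
    IsTVS 𝕜 X → ComplOver U X → CountablyComplete X

lemma convergesOver_iff {X : Type} [AddCommGroup X] [TopologicalSpace X] (F : Filter ℕ)
    (x : ℕ → X) (y : X) : ConvergesOver F x y ↔ Tendsto x F (𝓝 y) := by
  constructor
  · intro h V hV
    obtain ⟨A, hA, hA2⟩ := h V hV
    exact Filter.mem_map.mpr (mem_of_superset hA hA2)
  · intro h V hV
    exact ⟨x ⁻¹' V, h hV, fun n hn => hn⟩

open Pool.Agent.Q304 in
/-- the space is complete over the members of the family -/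
lemma complOver_of_mem (𝕜 : Type) [RCLike 𝕜] {𝓕 : Set (Filter ℕ)} {F : Filter ℕ} (hF : F ∈ 𝓕)
    (hne : F.NeBot) : ComplOver F (UU.Sp 𝕜 𝓕) := by
  intro x hx
  have hco : ∀ A : Set ℕ, ∃ y : 𝕜, Tendsto (fun n => (x n : Set ℕ → 𝕜) A) F (𝓝 y) := by
    intro A
    apply cauchy_map_iff_exists_tendsto.mp
    rw [Metric.cauchy_iff]
    refine ⟨inferInstance, fun ε hε => ?_⟩
    have hW : {z : UU.Sp 𝕜 𝓕 | ‖(z : Set ℕ → 𝕜) A‖ < ε} ∈ 𝓝 (0 : UU.Sp 𝕜 𝓕) := by
      apply IsOpen.mem_nhds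
      · have hc : Continuous (fun z : UU.Sp 𝕜 𝓕 => ‖(z : Set ℕ → 𝕜) A‖) :=
          ((continuous_apply A).comp continuous_subtype_val).norm
        exact isOpen_lt hc continuous_const
      · simpa using hε
    obtain ⟨B, hB, hB2⟩ := hx _ hW
    refine ⟨(fun n => (x n : Set ℕ → 𝕜) A) '' B, image_mem_map hB, ?_⟩
    rintro _ ⟨n, hn, rfl⟩ _ ⟨m, hm, rfl⟩
    have := hB2 n hn m hm
    rw [dist_eq_norm]
    simpa using this
  choose y hy using hco
  have hy' : Tendsto (fun n => (x n : Set ℕ → 𝕜)) F (𝓝 y) := tendsto_pi_nhds.mpr hy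
  have hmem : y ∈ UU.Sp 𝕜 𝓕 := UU.ev_lim 𝕜 𝓕 hF (fun n => (x n).2) hy'
  refine ⟨⟨y, hmem⟩, ?_⟩
  rw [convergesOver_iff, tendsto_subtype_rng]
  exact hy'

open Pool.Agent.Q304 in
/-- the sequence of point masses -/
noncomputable def ds (𝕜 : Type) [RCLike 𝕜] (𝓕 : Set (Filter ℕ)) (n : ℕ) : UU.Sp 𝕜 𝓕 :=
  ⟨UU.dl 𝕜 n, UU.ev_base 𝕜 𝓕 n⟩

open Pool.Agent.Q304 in
/-- completeness over `V` puts the point mass of `V` into the space. -/
lemma mem_of_complOver (𝕜 : Type) [RCLike 𝕜] {𝓕 : Set (Filter ℕ)} (V : Ultrafilter ℕ)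
    (h : ComplOver (V : Filter ℕ) (UU.Sp 𝕜 𝓕)) : UU.dU 𝕜 V ∈ UU.Sp 𝕜 𝓕 := by
  have hc : CauchyOver (V : Filter ℕ) (ds 𝕜 𝓕) := by
    intro U hU
    rw [nhds_subtype_eq_comap, mem_comap] at hU
    obtain ⟨W, hW, hWU⟩ := hU
    have ht := UU.tendsto_dl 𝕜 V
    have h0 : Tendsto (fun p : (Set ℕ → 𝕜) × (Set ℕ → 𝕜) => p.1 - p.2)
        (𝓝 (UU.dU 𝕜 V) ×ˢ 𝓝 (UU.dU 𝕜 V)) (𝓝 0) := by
      have : Tendsto (fun p : (Set ℕ → 𝕜) × (Set ℕ → 𝕜) => p.1 - p.2)
        (𝓝 (UU.dU 𝕜 V, UU.dU 𝕜 V)) (𝓝 (UU.dU 𝕜 V - UU.dU 𝕜 V)) :=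
        (continuous_fst.sub continuous_snd).tendsto _
      rwa [sub_self, nhds_prod_eq] at this
    have h1 := h0 hW
    rw [Filter.mem_map, Filter.mem_prod_same_iff] at h1
    obtain ⟨N, hN, hN2⟩ := h1
    refine ⟨UU.dl 𝕜 ⁻¹' N, ht hN, fun n hn m hm => hWU ?_⟩
    exact hN2 (Set.mk_mem_prod hn hm)
  obtain ⟨y, hy⟩ := h _ hc
  rw [convergesOver_iff, tendsto_subtype_rng] at hy
  have := tendsto_nhds_unique hy (UU.tendsto_dl 𝕜 V)
  rw [← this]
  exact y.2

open Pool.Agent.Q304 in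
/-- **Main theorem.** Scalars `𝕜 = ℝ` or `𝕜 = ℂ`. (1) No free ultrafilter on `ℕ` is universal.
(2) For every family `𝓕` of at most continuum many free filters there is a Hausdorff TVS that is
complete over all of them, is complete over at most continuum many free ultrafilters, fails to be
complete over `2 ^ 𝔠` free ultrafilters, and so is not countably complete. -/
theorem result (𝕜 : Type) [RCLike 𝕜] :
    (¬ ∃ U : Ultrafilter ℕ, Universal 𝕜 U) ∧
    ∀ 𝓕 : Set (Filter ℕ), (∀ F ∈ 𝓕, IsFree F) → #𝓕 ≤ 𝔠 →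
      ∃ (X : Type) (_ : AddCommGroup X) (_ : Module 𝕜 X) (_ : TopologicalSpace X),
        IsTVS 𝕜 X ∧ (∀ F ∈ 𝓕, ComplOver F X) ∧
        #{V : Ultrafilter ℕ | IsFree V ∧ ComplOver V X} ≤ 𝔠 ∧
        #{V : Ultrafilter ℕ | IsFree V ∧ ¬ ComplOver V X} = 2 ^ 𝔠 ∧
        ¬ CountablyComplete X := by
  have main : ∀ 𝓕 : Set (Filter ℕ), (∀ F ∈ 𝓕, IsFree F) → #𝓕 ≤ 𝔠 →
      ∃ (X : Type) (_ : AddCommGroup X) (_ : Module 𝕜 X) (_ : TopologicalSpace X),
        IsTVS 𝕜 X ∧ (∀ F ∈ 𝓕, ComplOver F X) ∧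
        #{V : Ultrafilter ℕ | IsFree V ∧ ComplOver V X} ≤ 𝔠 ∧
        #{V : Ultrafilter ℕ | IsFree V ∧ ¬ ComplOver V X} = 2 ^ 𝔠 ∧
        ¬ CountablyComplete X := by
    intro 𝓕 h𝓕 hc
    obtain ⟨u, hu, hu2⟩ := UU.exists_inj
    have hS := UU.mk_Sp_le 𝕜 𝓕 hc
    have hbig : 𝔠 < #(Set (Set ℕ)) := by
      rw [Cardinal.mk_set, Cardinal.mk_set_nat]
      exact Cardinal.cantor _
    have hbad : #{V : Ultrafilter ℕ | IsFree V ∧ ¬ ComplOver V (UU.Sp 𝕜 𝓕)} = 2 ^ 𝔠 := by
      apply le_antisymm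
      · have h1 : #{V : Ultrafilter ℕ | IsFree V ∧ ¬ ComplOver V (UU.Sp 𝕜 𝓕)}
            ≤ #(Ultrafilter ℕ) := Cardinal.mk_set_le _
        have h2 : #(Ultrafilter ℕ) ≤ #(Set (Set ℕ)) := by
          apply Cardinal.mk_le_of_injective (f := fun V : Ultrafilter ℕ => {A : Set ℕ | A ∈ V})
          intro V W h
          apply Ultrafilter.coe_injective
          ext A
          exact Set.ext_iff.mp h A
        rw [Cardinal.mk_set, Cardinal.mk_set_nat] at h2
        exact h1.trans h2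
      · let G : Set (Set (Set ℕ)) := {H | ComplOver (u H : Filter ℕ) (UU.Sp 𝕜 𝓕)}
        have hG : #G ≤ 𝔠 := by
          refine le_trans ?_ hS
          apply Cardinal.mk_le_of_injective (f := fun H : G =>
            (⟨UU.dU 𝕜 (u H), mem_of_complOver 𝕜 (u H) H.2⟩ : UU.Sp 𝕜 𝓕))
          intro H H' h
          apply Subtype.ext
          apply hu
          apply UU.dU_inj 𝕜
          exact congrArg Subtype.val h
        have hinf : Infinite (Set (Set ℕ)) :=
          Cardinal.infinite_iff.mpr (Cardinal.aleph0_le_continuum.trans hbig.le)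
        have h3 : #(Gᶜ : Set (Set (Set ℕ))) = #(Set (Set ℕ)) :=
          Cardinal.mk_compl_of_infinite G (hG.trans_lt hbig)
        have h4 : #(Set (Set ℕ)) = 2 ^ 𝔠 := by rw [Cardinal.mk_set, Cardinal.mk_set_nat]
        rw [← h4, ← h3]
        apply Cardinal.mk_le_of_injective (f := fun H : (Gᶜ : Set (Set (Set ℕ))) =>
          (⟨u H, ⟨inferInstance, hu2 H⟩, H.2⟩ :
            {V : Ultrafilter ℕ | IsFree V ∧ ¬ ComplOver V (UU.Sp 𝕜 𝓕)}))
        intro H H' h
        apply Subtype.ext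
        apply hu
        exact congrArg Subtype.val h
    refine ⟨UU.Sp 𝕜 𝓕, inferInstance, inferInstance, inferInstance,
      ⟨inferInstance, inferInstance, inferInstance⟩, ?_, ?_, hbad, ?_⟩
    · intro F hF
      exact complOver_of_mem 𝕜 hF (h𝓕 F hF).1
    · refine le_trans ?_ hS
      apply Cardinal.mk_le_of_injective
        (f := fun V : {V : Ultrafilter ℕ | IsFree V ∧ ComplOver V (UU.Sp 𝕜 𝓕)} =>
          (⟨UU.dU 𝕜 V.1, mem_of_complOver 𝕜 V.1 V.2.2⟩ : UU.Sp 𝕜 𝓕))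
      intro V W h
      apply Subtype.ext
      apply UU.dU_inj 𝕜
      exact congrArg Subtype.val h
    · intro hcc
      have he : {V : Ultrafilter ℕ | IsFree V ∧ ¬ ComplOver V (UU.Sp 𝕜 𝓕)} = ∅ := by
        ext V
        simp only [Set.mem_ofPred_eq, Set.mem_empty_iff_false, iff_false, not_and, not_not]
        exact fun hV => hcc V hV
      rw [he, Cardinal.mk_emptyCollection] at hbad
      exact (Cardinal.power_pos _ two_pos).ne' hbad.symm
  refine ⟨?_, main⟩
  rintro ⟨U, hU, hall⟩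
  obtain ⟨X, i1, i2, i3, hX, hcU, -, -, hnot⟩ := main {(U : Filter ℕ)} (by
    intro F hF
    rw [Set.mem_singleton_iff] at hF
    rw [hF]
    exact hU) (by simp [Cardinal.one_le_iff_ne_zero, Cardinal.continuum_ne_zero])
  exact hnot (hall X hX (hcU _ rfl))

end Pool.Agent.Results.MP_6ca30a_an.NoUniversal
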